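import Pool.Agent.Helper73.RT.Defs
import Pool.Agent.Helper85.RT.LowerTail
import Pool.Agent.Helper37.RT.PairsOf

/-!
# RT-A8d : few colourings have two large sets with few blue edges between them
-/

set_option autoImplicit false

open Finset

namespace Pool.Agent.Helper73.RT

/-- union bound -/
theorem ncard_exists_le_a8d {α β : Type} [Fintype α] (s : Finset β) (P : β → α → Prop) (B : ℝ)
    (h : ∀ b ∈ s, (({f | P b f} : Set α).ncard : ℝ) ≤ B) :
    (({f | ∃ b ∈ s, P b f} : Set α).ncard : ℝ) ≤ s.card * B := by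
  classical
  induction s using Finset.induction_on with
  | empty => simp
  | @insert b s hb ih =>
    have h1 : ({f | ∃ c ∈ insert b s, P c f} : Set α) = {f | P b f} ∪ {f | ∃ c ∈ s, P c f} := by
      ext f
      simp
    have h2 : (({f | ∃ c ∈ insert b s, P c f} : Set α).ncard : ℝ) ≤
        (({f | P b f} : Set α).ncard : ℝ) + (({f | ∃ c ∈ s, P c f} : Set α).ncard : ℝ) := by
      rw [h1]
      exact_mod_cast Set.ncard_union_le _ _
    have h3 := h b (Finset.mem_insert_self b s)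
    have h4 := ih fun c hc => h c (Finset.mem_insert_of_mem hc)
    rw [Finset.card_insert_of_notMem hb]
    push_cast
    linarith

theorem lt_two_pow_ell_a8d (t : ℕ) : t < 2 ^ ell t := Nat.lt_pow_succ_log_self one_lt_two t

/-- RT-A8d. Few colourings have two large sets with few blue edges between them
(needs A3, A6). -/
theorem bad_d (t : ℕ) (ht : 10 ≤ t) :
    ({f : Sym2 (Fin (t ^ 40)) → Fin (30 * t ^ 20) |
        ∃ J J' : Finset (Fin (t ^ 40)), J.card = bT t ∧ J'.card = bT t ∧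
          ((pairsOf J J').filter fun e => (f e).val < 30 * t).card ≤
            60 * ell t * bT t}.ncard : ℝ)
      < ((30 * t ^ 20 : ℕ) : ℝ) ^ Fintype.card (Sym2 (Fin (t ^ 40))) / 5 := by
  classical
  have hQ : 0 < 30 * t ^ 20 := by positivity
  have hl : 1 ≤ ell t := by unfold ell; omega
  have hq : 30 * t ≤ 30 * t ^ 20 := by
    have h1 : t ^ 1 ≤ t ^ 20 := Nat.pow_le_pow_right (by omega) (by norm_num)
    rw [pow_one] at h1
    omega
  set b := bT t with hb
  set l := ell t with hl'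
  have hbdef : b = 720 * l * t ^ 19 := rfl
  have htp : 10 ≤ t ^ 19 := by
    calc 10 ≤ t := ht
      _ = t ^ 1 := (pow_one t).symm
      _ ≤ t ^ 19 := Nat.pow_le_pow_right (by omega) (by norm_num)
  have hb1 : 7200 ≤ b := by
    rw [hbdef]
    calc 7200 = 720 * 1 * 10 := by norm_num
      _ ≤ 720 * l * t ^ 19 := by gcongr
  set K : ℝ := ((30 * t ^ 20 : ℕ) : ℝ) ^ Fintype.card (Sym2 (Fin (t ^ 40))) with hK
  have hKpos : 0 < K := by rw [hK]; exact pow_pos (by exact_mod_cast hQ) _
  -- one pair of sets `J`, `J'`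
  set B : ℝ := 2 ^ (60 * l * b) * Real.exp (-(180 * l * (b - 1))) * K with hB
  have hone : ∀ p ∈ ((Finset.univ : Finset (Fin (t ^ 40))).powersetCard b) ×ˢ
      ((Finset.univ : Finset (Fin (t ^ 40))).powersetCard b),
      (({f : Sym2 (Fin (t ^ 40)) → Fin (30 * t ^ 20) |
        ((pairsOf p.1 p.2).filter fun e => (f e).val < 30 * t).card ≤ 60 * l * b} :
          Set _).ncard : ℝ) ≤ B := by
    intro p hp
    have hJc : p.1.card = b := (Finset.mem_powersetCard.1 (Finset.mem_product.1 hp).1).2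
    have hJc' : p.2.card = b := (Finset.mem_powersetCard.1 (Finset.mem_product.1 hp).2).2
    refine (lower_tail hQ (30 * t) hq (pairsOf p.1 p.2) (60 * l * b)).trans ?_
    rw [hB]
    refine mul_le_mul_of_nonneg_right ?_ hKpos.le
    refine mul_le_mul_of_nonneg_left ?_ (by positivity)
    refine Real.exp_le_exp.2 (neg_le_neg ?_)
    have hge := pairsOf_card_ge p.1 p.2
    rw [hJc, hJc'] at hge
    have hge' : (b : ℝ) * b ≤ 2 * ((pairsOf p.1 p.2).card : ℝ) + b := by exact_mod_cast hge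
    have ht0 : (0 : ℝ) < t := by
      have : 0 < t := by omega
      exact_mod_cast this
    have hbR : (b : ℝ) = 720 * l * (t : ℝ) ^ 19 := by rw [hbdef]; push_cast; ring
    have e1 : ((30 * t : ℕ) : ℝ) * ((pairsOf p.1 p.2).card : ℝ) /
        (2 * ((30 * t ^ 20 : ℕ) : ℝ)) = ((pairsOf p.1 p.2).card : ℝ) / (2 * (t : ℝ) ^ 19) := by
      push_cast
      field_simp
    rw [e1, le_div_iff₀ (by positivity)]
    have e2 : (180 : ℝ) * l * (b - 1) * (2 * (t : ℝ) ^ 19) = b * (b - 1) / 2 := by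
      have e3 : (b : ℝ) * ((b : ℝ) - 1) / 2 =
          (720 * l * (t : ℝ) ^ 19) * ((b : ℝ) - 1) / 2 := by
        nth_rewrite 1 [hbR]; rfl
      rw [e3]
      ring
    rw [e2]
    linarith
  have hsub : ({f : Sym2 (Fin (t ^ 40)) → Fin (30 * t ^ 20) |
        ∃ J J' : Finset (Fin (t ^ 40)), J.card = b ∧ J'.card = b ∧
          ((pairsOf J J').filter fun e => (f e).val < 30 * t).card ≤ 60 * l * b} : Set _) ⊆
      {f | ∃ p ∈ ((Finset.univ : Finset (Fin (t ^ 40))).powersetCard b) ×ˢ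
      ((Finset.univ : Finset (Fin (t ^ 40))).powersetCard b),
        ((pairsOf p.1 p.2).filter fun e => (f e).val < 30 * t).card ≤ 60 * l * b} := by
    rintro f ⟨J, J', hJ, hJ', h⟩
    exact ⟨(J, J'), Finset.mem_product.2 ⟨Finset.mem_powersetCard.2 ⟨Finset.subset_univ _, hJ⟩,
      Finset.mem_powersetCard.2 ⟨Finset.subset_univ _, hJ'⟩⟩, h⟩
  have hle := (Nat.cast_le (α := ℝ)).2 (Set.ncard_le_ncard hsub (Set.toFinite _))
  have hun := ncard_exists_le_a8d (((Finset.univ : Finset (Fin (t ^ 40))).powersetCard b) ×ˢ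
      ((Finset.univ : Finset (Fin (t ^ 40))).powersetCard b))
    (fun p (f : Sym2 (Fin (t ^ 40)) → Fin (30 * t ^ 20)) =>
      ((pairsOf p.1 p.2).filter fun e => (f e).val < 30 * t).card ≤ 60 * l * b) B hone
  refine lt_of_le_of_lt (hle.trans hun) ?_
  have hcard1 : ((Finset.univ : Finset (Fin (t ^ 40))).powersetCard b).card ≤
      2 ^ (40 * l * b) := by
    rw [Finset.card_powersetCard, Finset.card_univ, Fintype.card_fin]
    have h1 : (t ^ 40).choose b ≤ (t ^ 40) ^ b := Nat.choose_le_pow _ _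
    have h2 : (t ^ 40) ^ b ≤ ((2 ^ l) ^ 40) ^ b := by
      gcongr
      exact (lt_two_pow_ell_a8d t).le
    have h3 : ((2 ^ l) ^ 40) ^ b = 2 ^ (40 * l * b) := by
      rw [← pow_mul, ← pow_mul]; ring_nf
    exact (h1.trans h2).trans (le_of_eq h3)
  have hcard : ((((Finset.univ : Finset (Fin (t ^ 40))).powersetCard b) ×ˢ
      ((Finset.univ : Finset (Fin (t ^ 40))).powersetCard b)).card : ℝ) ≤
      2 ^ (80 * l * b) := by
    rw [Finset.card_product]
    have h1 := Nat.mul_le_mul hcard1 hcard1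
    have h2 : 2 ^ (40 * l * b) * 2 ^ (40 * l * b) = 2 ^ (80 * l * b) := by
      rw [← pow_add]; ring_nf
    rw [h2] at h1
    exact_mod_cast h1
  have hBnn : 0 ≤ B := by rw [hB]; positivity
  refine lt_of_le_of_lt (mul_le_mul_of_nonneg_right hcard hBnn) ?_
  have hkey : (2 : ℝ) ^ (80 * l * b) * (2 ^ (60 * l * b) * Real.exp (-(180 * l * (b - 1)))) <
      1 / 5 := by
    have h1 : (2 : ℝ) ^ (80 * l * b) * 2 ^ (60 * l * b) = 2 ^ (140 * l * b) := by
      rw [← pow_add]; ring_nf
    rw [← mul_assoc, h1]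
    have h2 : (2 : ℝ) ^ (140 * l * b) = Real.exp (Real.log 2 * ((140 * l * b : ℕ) : ℝ)) := by
      rw [mul_comm (Real.log 2), Real.exp_nat_mul, Real.exp_log (by norm_num)]
    rw [h2, ← Real.exp_add]
    have h3 : Real.log 2 < 0.6931471808 := Real.log_two_lt_d9
    have h4 : (1 : ℝ) ≤ l := by exact_mod_cast hl
    have h5 : (7200 : ℝ) ≤ b := by exact_mod_cast hb1
    have h6 : Real.log 2 * ((140 * l * b : ℕ) : ℝ) + -(180 * l * (b - 1)) ≤ -2 := by
      push_cast
      have h7 : Real.log 2 * (140 * l * b) ≤ 0.6931471808 * (140 * l * b) := by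
        have : (0 : ℝ) ≤ 140 * l * b := by positivity
        nlinarith
      nlinarith [mul_nonneg (by linarith : (0 : ℝ) ≤ (l : ℝ) - 1)
        (by linarith : (0 : ℝ) ≤ (b : ℝ) - 7200)]
    refine lt_of_le_of_lt (Real.exp_le_exp.2 h6) ?_
    rw [Real.exp_neg, inv_lt_comm₀ (Real.exp_pos 2) (by norm_num)]
    have h8 : (2.7182818283 : ℝ) < Real.exp 1 := Real.exp_one_gt_d9
    have h9 : Real.exp 2 = Real.exp 1 * Real.exp 1 := by rw [← Real.exp_add]; norm_num
    rw [h9]
    nlinarith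
  calc (2 : ℝ) ^ (80 * l * b) * B
      = (2 : ℝ) ^ (80 * l * b) * (2 ^ (60 * l * b) * Real.exp (-(180 * l * (b - 1)))) * K := by
        rw [hB]; ring
    _ < 1 / 5 * K := mul_lt_mul_of_pos_right hkey hKpos
    _ = K / 5 := by ring

end Pool.Agent.Helper73.RT
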