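import Pool.Agent.Helper30.RT.ThetaOf
import Pool.Agent.Helper30.RT.BadD

/-!
# Project RT, module A9: the red-blue graph
-/

set_option autoImplicit false

open Finset

namespace Pool.Agent.Helper73.RT

/-- RT-A9. The red-blue graph (needs A7, A8a-e). -/
theorem theta_exists (t : ℕ) (ht : 10 ≤ t) :
    ∃ R B : SimpleGraph (Fin (t ^ 40)), R ≤ B ∧ R.CliqueFree 3 ∧ B.CliqueFree 4 ∧
      (∀ J : Finset (Fin (t ^ 40)), aT t ≤ J.card → ∃ x ∈ J, ∃ y ∈ J, R.Adj x y) ∧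
      (∀ J J' : Finset (Fin (t ^ 40)), bT t ≤ J.card → bT t ≤ J'.card →
        ∃ x ∈ J, ∃ y ∈ J', B.Adj x y) := theta_exists_of t ht (bad_d t ht)

end Pool.Agent.Helper73.RT
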