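import Pool.Agent.Helper73.RT.Defs
import Pool.Agent.Helper37.RT.PairsOf
import Pool.Agent.Helper45.RT.Deletion
import Pool.Agent.Helper81.RT.BadA
import Pool.Agent.Helper5.RT.BadB
import Pool.Agent.Helper72.RT.BadC
import Pool.Agent.Helper75.RT.BadE

/-!
# Project RT, module A9: the red-blue graph

`theta_exists_of` proves the statement from the bound A8d (as a hypothesis).
-/

set_option autoImplicit false

open Finset

namespace Pool.Agent.Helper73.RT

/-- An edge-disjoint family all of whose members satisfy `P` is small if there is no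
edge-disjoint family of size exactly `T` with this property. -/
theorem th_fam_lt {N : ℕ} (F : Finset (Finset (Fin N))) (T : ℕ) (P : Finset (Fin N) → Prop)
    (hdis : EdgeDisj F) (hP : ∀ K ∈ F, P K)
    (hbad : ¬ ∃ D : Finset (Finset (Fin N)), D.card = T ∧ EdgeDisj D ∧ ∀ K ∈ D, P K) :
    F.card < T := by
  by_contra h
  rw [not_lt] at h
  obtain ⟨D, hD, hc⟩ := exists_subset_card_eq h
  exact hbad ⟨D, hc, fun K hK K' hK' hne => hdis K (hD hK) K' (hD hK') hne,
    fun K hK => hP K (hD hK)⟩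

/-- Edge-disjointness passes to subfamilies. -/
theorem th_dis_mono {N : ℕ} {F D : Finset (Finset (Fin N))} (hdis : EdgeDisj F) (hD : D ⊆ F) :
    EdgeDisj D := fun K hK K' hK' hne => hdis K (hD hK) K' (hD hK') hne

/-- If the five bad sets do not cover all colourings, there is a good one. -/
theorem th_avoid {α : Type} [Fintype α] (A1 A2 A3 A4 A5 : Set α) (V : ℝ)
    (hV : V = Fintype.card α) (h1 : (A1.ncard : ℝ) < V / 5) (h2 : (A2.ncard : ℝ) < V / 5)
    (h3 : (A3.ncard : ℝ) < V / 5) (h4 : (A4.ncard : ℝ) < V / 5) (h5 : (A5.ncard : ℝ) < V / 5) :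
    ∃ f : α, f ∉ A1 ∧ f ∉ A2 ∧ f ∉ A3 ∧ f ∉ A4 ∧ f ∉ A5 := by
  by_contra hcon
  have hcov : (Set.univ : Set α) ⊆ (((A1 ∪ A2) ∪ A3) ∪ A4) ∪ A5 := by
    intro f _
    by_contra hf
    apply hcon
    refine ⟨f, ?_, ?_, ?_, ?_, ?_⟩ <;> intro h <;> apply hf
    · exact Or.inl (Or.inl (Or.inl (Or.inl h)))
    · exact Or.inl (Or.inl (Or.inl (Or.inr h)))
    · exact Or.inl (Or.inl (Or.inr h))
    · exact Or.inl (Or.inr h)
    · exact Or.inr h
  have hc := Set.ncard_le_ncard hcov (Set.toFinite _)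
  have e1 := Set.ncard_union_le (((A1 ∪ A2) ∪ A3) ∪ A4) A5
  have e2 := Set.ncard_union_le ((A1 ∪ A2) ∪ A3) A4
  have e3 := Set.ncard_union_le (A1 ∪ A2) A3
  have e4 := Set.ncard_union_le A1 A2
  rw [Set.ncard_univ, Nat.card_eq_fintype_card] at hc
  have hle : Fintype.card α ≤ A1.ncard + A2.ncard + A3.ncard + A4.ncard + A5.ncard := by omega
  have hle' : (Fintype.card α : ℝ) ≤
      A1.ncard + A2.ncard + A3.ncard + A4.ncard + A5.ncard := by exact_mod_cast hle
  rw [hV] at h1 h2 h3 h4 h5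
  linarith

/-- The deterministic part. -/
theorem th_det (t : ℕ) (f : Sym2 (Fin (t ^ 40)) → Fin (30 * t ^ 20)) (ht : 1 ≤ t)
    (ha : ¬ ∃ J : Finset (Fin (t ^ 40)), J.card = aT t ∧
      ((pairsOf J J).filter fun e => (f e).val < 1).card ≤ 120 * ell t * aT t)
    (hb : ¬ ∃ J : Finset (Fin (t ^ 40)), J.card = aT t ∧ ∃ D : Finset (Finset (Fin (t ^ 40))),
      D.card = 20 * ell t * aT t ∧ EdgeDisj D ∧
      ∀ K ∈ D, (colGraph f 1).IsNClique 3 K ∧ ∃ e ∈ pairsOf K K, e ∈ pairsOf J J)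
    (hc : ¬ ∃ J : Finset (Fin (t ^ 40)), J.card = aT t ∧ ∃ D : Finset (Finset (Fin (t ^ 40))),
      D.card = 10 * ell t * aT t ∧ EdgeDisj D ∧
      ∀ K ∈ D, (colGraph f (30 * t)).IsNClique 4 K ∧
        ∃ e ∈ pairsOf K K, e ∈ pairsOf J J ∧ (f e).val < 1)
    (hd : ¬ ∃ J J' : Finset (Fin (t ^ 40)), J.card = bT t ∧ J'.card = bT t ∧
      ((pairsOf J J').filter fun e => (f e).val < 30 * t).card ≤ 60 * ell t * bT t)
    (he : ¬ ∃ J J' : Finset (Fin (t ^ 40)), J.card = bT t ∧ J'.card = bT t ∧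
      ∃ D : Finset (Finset (Fin (t ^ 40))),
      D.card = 10 * ell t * bT t ∧ EdgeDisj D ∧
      ∀ K ∈ D, (colGraph f (30 * t)).IsNClique 4 K ∧ ∃ e ∈ pairsOf K K, e ∈ pairsOf J J') :
    ∃ R B : SimpleGraph (Fin (t ^ 40)), R ≤ B ∧ R.CliqueFree 3 ∧ B.CliqueFree 4 ∧
      (∀ J : Finset (Fin (t ^ 40)), aT t ≤ J.card → ∃ x ∈ J, ∃ y ∈ J, R.Adj x y) ∧
      (∀ J J' : Finset (Fin (t ^ 40)), bT t ≤ J.card → bT t ≤ J'.card →
        ∃ x ∈ J, ∃ y ∈ J', B.Adj x y) := by
  classical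
  have hRB : colGraph f 1 ≤ colGraph f (30 * t) := by
    intro x y hxy
    exact ⟨hxy.1, lt_of_lt_of_le hxy.2 (by omega)⟩
  obtain ⟨R, B, hle, hRle, hBle, hR3, hB4, F3, F4, hF3, hF4, hd3, hd4, hdelR, hdelB⟩ :=
    deletion (colGraph f 1) (colGraph f (30 * t)) hRB
  have hc3 : ∀ K ∈ F3, (pairsOf K K).card = 3 := by
    intro K hK
    rw [pairsOf_self_card, (hF3 K hK).card_eq]
    rfl
  have hc4 : ∀ K ∈ F4, (pairsOf K K).card = 6 := by
    intro K hK
    rw [pairsOf_self_card, (hF4 K hK).card_eq]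
    rfl
  refine ⟨R, B, hle, hR3, hB4, ?_, ?_⟩
  · intro J1 hJ1
    obtain ⟨J, hJJ, hJ⟩ := exists_subset_card_eq hJ1
    by_contra hno
    have hA : 120 * ell t * aT t < ((pairsOf J J).filter fun e => (f e).val < 1).card := by
      by_contra h
      rw [not_lt] at h
      exact ha ⟨J, hJ, h⟩
    have h3 : (F3.filter fun K => ∃ e ∈ pairsOf K K, e ∈ pairsOf J J).card
        < 20 * ell t * aT t := by
      refine th_fam_lt _ _ (fun K => (colGraph f 1).IsNClique 3 K ∧
        ∃ e ∈ pairsOf K K, e ∈ pairsOf J J) (th_dis_mono hd3 (filter_subset _ _)) ?_ ?_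
      · intro K hK
        rw [mem_filter] at hK
        exact ⟨hF3 K hK.1, hK.2⟩
      · intro h
        exact hb ⟨J, hJ, h⟩
    have h4 : (F4.filter fun K => ∃ e ∈ pairsOf K K, e ∈ pairsOf J J ∧ (f e).val < 1).card
        < 10 * ell t * aT t := by
      refine th_fam_lt _ _ (fun K => (colGraph f (30 * t)).IsNClique 4 K ∧
        ∃ e ∈ pairsOf K K, e ∈ pairsOf J J ∧ (f e).val < 1)
        (th_dis_mono hd4 (filter_subset _ _)) ?_ ?_
      · intro K hK
        rw [mem_filter] at hK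
        exact ⟨hF4 K hK.1, hK.2⟩
      · intro h
        exact hc ⟨J, hJ, h⟩
    have hsub : ((pairsOf J J).filter fun e => (f e).val < 1) ⊆
        ((F3.filter fun K => ∃ e ∈ pairsOf K K, e ∈ pairsOf J J).biUnion
          fun K => pairsOf K K) ∪
        ((F4.filter fun K => ∃ e ∈ pairsOf K K, e ∈ pairsOf J J ∧ (f e).val < 1).biUnion
          fun K => pairsOf K K) := by
      intro e he1
      rw [mem_filter] at he1
      obtain ⟨he1, he2⟩ := he1
      have he3 := he1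
      rw [mem_pairsOf] at he3
      obtain ⟨x, hx, y, hy, hxy, rfl⟩ := he3
      have hin : s(x, y) ∈ (colGraph f 1).edgeSet := by
        rw [SimpleGraph.mem_edgeSet]
        exact ⟨hxy, he2⟩
      have hout : s(x, y) ∉ R.edgeSet := by
        rw [SimpleGraph.mem_edgeSet]
        intro hadj
        exact hno ⟨x, hJJ hx, y, hJJ hy, hadj⟩
      rw [mem_union]
      rcases hdelR _ hin hout with ⟨K, hK, hKe⟩ | ⟨K, hK, hKe⟩
      · left
        rw [mem_biUnion]
        exact ⟨K, mem_filter.2 ⟨hK, _, hKe, he1⟩, hKe⟩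
      · right
        rw [mem_biUnion]
        exact ⟨K, mem_filter.2 ⟨hK, _, hKe, he1, he2⟩, hKe⟩
    have hcard := card_le_card hsub
    have hun := card_union_le
      ((F3.filter fun K => ∃ e ∈ pairsOf K K, e ∈ pairsOf J J).biUnion
          fun K => pairsOf K K)
      ((F4.filter fun K => ∃ e ∈ pairsOf K K, e ∈ pairsOf J J ∧ (f e).val < 1).biUnion
          fun K => pairsOf K K)
    have hb3 := card_biUnion_le_card_mul
      (F3.filter fun K => ∃ e ∈ pairsOf K K, e ∈ pairsOf J J) (fun K => pairsOf K K) 3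
      (fun K hK => (hc3 K (mem_filter.1 hK).1).le)
    have hb4 := card_biUnion_le_card_mul
      (F4.filter fun K => ∃ e ∈ pairsOf K K, e ∈ pairsOf J J ∧ (f e).val < 1)
      (fun K => pairsOf K K) 6
      (fun K hK => (hc4 K (mem_filter.1 hK).1).le)
    have e20 : 20 * ell t * aT t = 20 * (ell t * aT t) := by ring
    have e10 : 10 * ell t * aT t = 10 * (ell t * aT t) := by ring
    have e120 : 120 * ell t * aT t = 120 * (ell t * aT t) := by ring
    rw [e20] at h3
    rw [e10] at h4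
    rw [e120] at hA
    omega
  · intro J1 J1' hJ1 hJ1'
    obtain ⟨J, hJJ, hJ⟩ := exists_subset_card_eq hJ1
    obtain ⟨J', hJJ', hJ'⟩ := exists_subset_card_eq hJ1'
    by_contra hno
    have hA : 60 * ell t * bT t < ((pairsOf J J').filter fun e => (f e).val < 30 * t).card := by
      by_contra h
      rw [not_lt] at h
      exact hd ⟨J, J', hJ, hJ', h⟩
    have h4 : (F4.filter fun K => ∃ e ∈ pairsOf K K, e ∈ pairsOf J J').card
        < 10 * ell t * bT t := by
      refine th_fam_lt _ _ (fun K => (colGraph f (30 * t)).IsNClique 4 K ∧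
        ∃ e ∈ pairsOf K K, e ∈ pairsOf J J')
        (th_dis_mono hd4 (filter_subset _ _)) ?_ ?_
      · intro K hK
        rw [mem_filter] at hK
        exact ⟨hF4 K hK.1, hK.2⟩
      · intro h
        exact he ⟨J, J', hJ, hJ', h⟩
    have hsub : ((pairsOf J J').filter fun e => (f e).val < 30 * t) ⊆
        ((F4.filter fun K => ∃ e ∈ pairsOf K K, e ∈ pairsOf J J').biUnion
          fun K => pairsOf K K) := by
      intro e he1
      rw [mem_filter] at he1
      obtain ⟨he1, he2⟩ := he1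
      have he3 := he1
      rw [mem_pairsOf] at he3
      obtain ⟨x, hx, y, hy, hxy, rfl⟩ := he3
      have hin : s(x, y) ∈ (colGraph f (30 * t)).edgeSet := by
        rw [SimpleGraph.mem_edgeSet]
        exact ⟨hxy, he2⟩
      have hout : s(x, y) ∉ B.edgeSet := by
        rw [SimpleGraph.mem_edgeSet]
        intro hadj
        exact hno ⟨x, hJJ hx, y, hJJ' hy, hadj⟩
      obtain ⟨K, hK, hKe⟩ := hdelB _ hin hout
      rw [mem_biUnion]
      exact ⟨K, mem_filter.2 ⟨hK, _, hKe, he1⟩, hKe⟩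
    have hcard := card_le_card hsub
    have hb4 := card_biUnion_le_card_mul
      (F4.filter fun K => ∃ e ∈ pairsOf K K, e ∈ pairsOf J J')
      (fun K => pairsOf K K) 6
      (fun K hK => (hc4 K (mem_filter.1 hK).1).le)
    have e10 : 10 * ell t * bT t = 10 * (ell t * bT t) := by ring
    have e60 : 60 * ell t * bT t = 60 * (ell t * bT t) := by ring
    rw [e10] at h4
    rw [e60] at hA
    omega

/-- RT-A9 from the bound RT-A8d. -/
theorem theta_exists_of (t : ℕ) (ht : 10 ≤ t)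
    (hbd : ({f : Sym2 (Fin (t ^ 40)) → Fin (30 * t ^ 20) |
        ∃ J J' : Finset (Fin (t ^ 40)), J.card = bT t ∧ J'.card = bT t ∧
          ((pairsOf J J').filter fun e => (f e).val < 30 * t).card ≤
            60 * ell t * bT t}.ncard : ℝ)
      < ((30 * t ^ 20 : ℕ) : ℝ) ^ Fintype.card (Sym2 (Fin (t ^ 40))) / 5) :
    ∃ R B : SimpleGraph (Fin (t ^ 40)), R ≤ B ∧ R.CliqueFree 3 ∧ B.CliqueFree 4 ∧
      (∀ J : Finset (Fin (t ^ 40)), aT t ≤ J.card → ∃ x ∈ J, ∃ y ∈ J, R.Adj x y) ∧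
      (∀ J J' : Finset (Fin (t ^ 40)), bT t ≤ J.card → bT t ≤ J'.card →
        ∃ x ∈ J, ∃ y ∈ J', B.Adj x y) := by
  classical
  have hV : ((30 * t ^ 20 : ℕ) : ℝ) ^ Fintype.card (Sym2 (Fin (t ^ 40))) =
      (Fintype.card (Sym2 (Fin (t ^ 40)) → Fin (30 * t ^ 20)) : ℝ) := by
    rw [Fintype.card_fun, Fintype.card_fin]
    push_cast
    rfl
  obtain ⟨f, h1, h2, h3, h4, h5⟩ := th_avoid _ _ _ _ _ _ hV (bad_a t ht) (bad_b t ht)
    (bad_c t ht) hbd (bad_e t ht)
  exact th_det t f (by omega) h1 h2 h3 h4 h5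

end Pool.Agent.Helper73.RT
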